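import Pool.Agent.Run7.h527.TP.Ex
import Pool.Agent.Results.MP_05f553_nt.MultiplicativeValues

/-!
# Philippon's inequality for the rationals with a coordinate near aliquot sums, cototients and arithmetic derivatives

Let `g(m)` be the sum of the proper divisors of `m`, the cototient `m - φ(m)`, the arithmetic derivative `m'` (with `p' = 1`
for primes and Leibniz' rule), or any positive combination `a m + b f(m)` with `f = σ`, `φ` or the arithmetic derivative. Let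
`G` have steps bounded below by a positive constant and growth at most `v^d`. For all `m ≤ N` which have two prime factors
`p ≠ q`, not dividing `m / (p q) ≥ 2`, with `p q ≥ m^τ`, but at most `N^(1 - η)` of them, for EVERY integer `n` with
`|n - G (g m)| ≤ g(m)^κ`, Philippon's inequality holds
(1) if `2 A d / α + κ < τ`: for ALL `x` and all `y` of height at most `n^A` with numerator `± n` or denominator `n`;
(2) if `d (2 γ + A / (α B)) + κ < τ` (every `α ≥ 1` is allowed): for all `x` of height at most `T n^γ` and these `y`.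
For small `τ` nearly all integers `m` have such prime factors.

Proof. Write `m = k p q`. Then `g(m) = a p q + b (p + q) + c` with integers `a ≠ 0`, `b`, `c` which depend on `k` only, and
`(a p + b) (a q + b) = a g(m) + b² - a c`. So for given `k ≤ N^(1 - τ)` every value is taken for at most `N^ε` pairs `p`, `q`
(the tool `Run7/h527/TP`), and the exceptional integers are few (starting files).
-/

set_option autoImplicit false

namespace Pool.Agent.Results.MP_05f553_nt.AliquotSums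

open Finset
open Pool.Agent.N733.TG (Expanding expanding_pow)
open Pool.Agent.Results.MP_05f553_nt.MultiplicativeValues (hgt Good good_iff BadG countG)
open Run7.h527.TP (Bil Two win_nat aliquot cototient deriv sig comb)

/-- **Philippon's inequality near the values of functions which are bilinear in two large primes.** Let `α ≥ 1`, `β ≥ 0`,
`ε < 1/2`, `ε B ≥ 2`, `A ≥ 1`, `κ ≥ 0`, `τ ≤ 1`. Let `g` be of the class `Bil`, and let `G` have steps `≥ a > 0` and growth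
at most `v^d`. There is `η > 0` such that for all large `N`, for all `m ≤ N` with `Two τ m` but at most `N^(1 - η)`, for EVERY
integer `n` with `|n - G (g m)| ≤ g(m)^κ` the inequality holds for all `y ≠ 0` of height at most `n^A` with numerator `± n` or
denominator `n`, and
(1) for ALL `x ≠ 0`, if `2 A d / α + κ < τ`;
(2) for all `x ≠ 0` of height at most `T n^γ`, if `d (2 γ + A / (α B)) + κ < τ` (`T` any constant, `γ ≥ 0`).
The sum of the proper divisors, the cototient, the arithmetic derivative and their positive combinations with the identity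
are examples of such functions `g`, and `a v^d` with `a > 0`, `d ≥ 1` is an example of `G`. -/
theorem result (B : ℕ) (α β ε A κ τ : ℝ) (hα : 1 ≤ α) (hβ : 0 ≤ β) (hε : ε < 1 / 2) (hB : 2 ≤ ε * B) (hA : 1 ≤ A)
    (hκ : 0 ≤ κ) (hτ : τ ≤ 1) :
    (∀ g : ℕ → ℕ, Bil g → ∀ (G : ℕ → ℝ) (d : ℝ), Expanding G d →
      (2 * A * d / α + κ < τ → ∃ η : ℝ, 0 < η ∧ ∃ N₀ : ℕ, ∀ N : ℕ, N₀ ≤ N →
        ({m : ℕ | 1 ≤ m ∧ m ≤ N ∧ Two τ m ∧ ¬ ∀ n : ℕ, |(n : ℝ) - G (g m)| ≤ (g m : ℝ) ^ κ → ∀ x : ℚ, x ≠ 0 →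
          Good B α β ε A x n}.ncard : ℝ) ≤ (N : ℝ) ^ (1 - η)) ∧
      (∀ T γ : ℝ, 0 ≤ γ → d * (2 * γ + A / (α * B)) + κ < τ → ∃ η : ℝ, 0 < η ∧ ∃ N₀ : ℕ, ∀ N : ℕ, N₀ ≤ N →
        ({m : ℕ | 1 ≤ m ∧ m ≤ N ∧ Two τ m ∧ ¬ ∀ n : ℕ, |(n : ℝ) - G (g m)| ≤ (g m : ℝ) ^ κ → ∀ x : ℚ, x ≠ 0 →
          hgt x ≤ T * (n : ℝ) ^ γ → Good B α β ε A x n}.ncard : ℝ) ≤ (N : ℝ) ^ (1 - η))) ∧
    (Bil aliquot ∧ Bil cototient ∧ Bil deriv ∧
      (∀ a b : ℤ, (∀ m : ℕ, 2 ≤ m → 0 < a * m + b * sig m) → Bil (comb a b sig)) ∧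
      (∀ a b : ℤ, (∀ m : ℕ, 2 ≤ m → 0 < a * m + b * Nat.totient m) → Bil (comb a b Nat.totient)) ∧
      ∀ a b : ℤ, (∀ m : ℕ, 2 ≤ m → 0 < a * m + b * deriv m) → Bil (comb a b deriv)) ∧
    ∀ a d : ℝ, 0 < a → 1 ≤ d → Expanding (fun v => a * (v : ℝ) ^ d) d := by
  have hA0 : 0 < A := by linarith
  have hα0 : 0 < α := by linarith
  refine ⟨fun g hg G d hG => ⟨fun h1 => ?_, fun T γ hγ h1 => ?_⟩, Run7.h527.TP.examples,
    fun a d ha hd => expanding_pow ha hd⟩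
  · obtain ⟨η, hη, N₀, hN₀⟩ := win_nat (SequenceHeights.Bad B α β ε A) hg hG (s := A * (2 / α)) (by positivity) hκ
      (by
        have : d * (A * (2 / α)) + κ = 2 * A * d / α + κ := by ring
        rw [this]
        exact h1) hτ (fun δ hδ => by
        obtain ⟨C, hC⟩ := SequenceHeights.count B α β ε A hα hβ hε hB hA δ hδ
        refine ⟨C, fun X hX => le_trans (le_of_eq ?_) (hC X hX)⟩
        congr!)
    refine ⟨η, hη, N₀, fun N hN => le_trans ?_ (hN₀ N hN)⟩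
    have hsub : {m : ℕ | 1 ≤ m ∧ m ≤ N ∧ Two τ m ∧ ¬ ∀ n : ℕ, |(n : ℝ) - G (g m)| ≤ (g m : ℝ) ^ κ → ∀ x : ℚ, x ≠ 0 →
        Good B α β ε A x n} ⊆ {m : ℕ | 1 ≤ m ∧ m ≤ N ∧ Two τ m ∧
          ∃ n : ℕ, (n = 0 ∨ n ∈ SequenceHeights.Bad B α β ε A) ∧ |(n : ℝ) - G (g m)| ≤ (g m : ℝ) ^ κ} := by
      rintro m ⟨h2, h3, h3', h4⟩
      push Not at h4
      obtain ⟨n, hn, x, hx, hg⟩ := h4
      exact ⟨h2, h3, h3', n, Or.inr ⟨x, hx, fun h => hg ((good_iff _ _ _ _ _ _ _).2 h)⟩, hn⟩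
    have hfin : {m : ℕ | 1 ≤ m ∧ m ≤ N ∧ Two τ m ∧ ∃ n : ℕ, (n = 0 ∨ n ∈ SequenceHeights.Bad B α β ε A) ∧
        |(n : ℝ) - G (g m)| ≤ (g m : ℝ) ^ κ}.Finite :=
      (Set.finite_Icc 1 N).subset fun m hm => ⟨hm.1, hm.2.1⟩
    exact_mod_cast Set.ncard_le_ncard hsub hfin
  · have hT' : (1 : ℝ) ≤ max T 1 := le_max_right _ _
    obtain ⟨η, hη, N₀, hN₀⟩ := win_nat (BadG B α β ε A (max T 1) γ) hg hG (s := 2 * γ + A / (α * B))
      (by positivity) hκ h1 hτ (fun δ hδ => by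
        obtain ⟨C, hC⟩ := countG B α β ε A (max T 1) γ hα hβ hε hB hA hT' hγ δ hδ
        refine ⟨C, fun X hX => le_trans (le_of_eq ?_) (hC X hX)⟩
        congr!)
    refine ⟨η, hη, N₀, fun N hN => le_trans ?_ (hN₀ N hN)⟩
    have hsub : {m : ℕ | 1 ≤ m ∧ m ≤ N ∧ Two τ m ∧ ¬ ∀ n : ℕ, |(n : ℝ) - G (g m)| ≤ (g m : ℝ) ^ κ → ∀ x : ℚ, x ≠ 0 →
        hgt x ≤ T * (n : ℝ) ^ γ → Good B α β ε A x n} ⊆
        {m : ℕ | 1 ≤ m ∧ m ≤ N ∧ Two τ m ∧ ∃ n : ℕ, (n = 0 ∨ n ∈ BadG B α β ε A (max T 1) γ) ∧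
          |(n : ℝ) - G (g m)| ≤ (g m : ℝ) ^ κ} := by
      rintro m ⟨h2, h3, h3', h4⟩
      push Not at h4
      obtain ⟨n, hn, x, hx, hh, hg⟩ := h4
      refine ⟨h2, h3, h3', n, Or.inr ⟨x, hx, hh.trans ?_, hg⟩, hn⟩
      exact mul_le_mul_of_nonneg_right (le_max_left _ _) (by positivity)
    have hfin : {m : ℕ | 1 ≤ m ∧ m ≤ N ∧ Two τ m ∧ ∃ n : ℕ, (n = 0 ∨ n ∈ BadG B α β ε A (max T 1) γ) ∧
        |(n : ℝ) - G (g m)| ≤ (g m : ℝ) ^ κ}.Finite :=
      (Set.finite_Icc 1 N).subset fun m hm => ⟨hm.1, hm.2.1⟩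
    exact_mod_cast Set.ncard_le_ncard hsub hfin

end Pool.Agent.Results.MP_05f553_nt.AliquotSums
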