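import Pool.Agent.Run7.h702.CT.B
import Pool.Agent.Results.MP_05f553_nt.MultiplicativeValues

/-!
# Philippon's inequality for all rationals with a coordinate near ANY term of almost every Collatz trajectory

Let `v` run through ALL the terms of the trajectory of `m` under the Collatz map (`n / 2`, `3 n + 1`) before its first value
smaller than `Y`. Let `G` be a function with steps bounded below by a positive constant and growth at most `v ^ d`, for example
`G v = v`, and `κ ≥ 0`. There is `η > 0` such that for all `B'` there is `K` such that for all `Y ≥ 2` and `N`, for all the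
`m ≤ N` but at most `K N / (log Y)^B'`: the trajectory has a value smaller than `Y`, and for EVERY term `v` before it, ALL
`1 ≤ a ≤ v ^ η` and EVERY integer `n` with `|n - a G v| ≤ v ^ (κ + η)`, Philippon's inequality holds
(1) if `2 A d / α + κ < 1`: for ALL `x` and all `y` of height at most `n^A` with numerator `± n` or denominator `n`;
(2) if `d (2 γ + A / (α B)) + κ < 1` (every `α ≥ 1` is allowed): for all `x` of height at most `T n^γ` and these `y`.
So for any function `F` which tends to infinity this holds for almost every `m` and all the terms of its trajectory down to its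
first value smaller than `F m`: a trajectory has about `10 log m` terms, of all sizes between `F m` and (at least) `m`.

The exceptional integers `n` are few (starting files), but the terms of the trajectory of an integer are not distributed like
random integers of their size: the tool is the theorem of the starting files that almost every trajectory avoids a thin set
(Tao's theorem in natural density for all the terms), in the form of `Run7/h702/CT` (multiples and windows).
-/

set_option autoImplicit false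

namespace Pool.Agent.Results.MP_05f553_nt.CollatzTerms

open Finset Filter Topology
open Pool.Agent.Results.MP_05f553_nt.MultiplicativeValues (hgt Good BadG countG good_iff)

/-- The Collatz map. -/
def collatz (n : ℕ) : ℕ := if n % 2 = 0 then n / 2 else 3 * n + 1

/-- The trajectory of `m` takes a value smaller than `Y`, and EVERY term `v` before it has the property `P`. -/
def AllTerms (P : ℕ → Prop) (Y : ℝ) (m : ℕ) : Prop :=
  ∃ k : ℕ, ((collatz^[k] m : ℕ) : ℝ) < Y ∧ ∀ j < k, P (collatz^[j] m)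

/-- `P` holds for all the terms of almost every trajectory: (1) for every `B` there is `K` such that `AllTerms P Y m` holds, for
all `Y ≥ 2` and `N`, for all the `m ∈ [1, N]` but at most `K N / (log Y)^B`; (2) for every function `F` which tends to infinity
the density of the `m` with `AllTerms P (F m) m` is `1`. -/
def OnAllTerms (P : ℕ → Prop) : Prop :=
  (∀ B : ℕ, ∃ K : ℝ, ∀ Y : ℝ, 2 ≤ Y → ∀ N : ℕ,
    (Set.ncard {m : ℕ | 1 ≤ m ∧ m ≤ N ∧ ¬ AllTerms P Y m} : ℝ) ≤ K * N / Real.log Y ^ B) ∧
  ∀ F : ℕ → ℝ, Tendsto F atTop atTop →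
    Tendsto (fun N : ℕ => (Set.ncard {m : ℕ | 1 ≤ m ∧ m ≤ N ∧ AllTerms P (F m) m} : ℝ) / N) atTop (𝓝 1)

/-- The steps of `G` are at least a positive constant, and `G` grows at most like `v ^ d`, `d ≥ 1`. -/
structure Expanding (G : ℕ → ℝ) (d : ℝ) : Prop where
  one_le : 1 ≤ d
  step : ∃ a : ℝ, 0 < a ∧ ∀ v : ℕ, 1 ≤ v → a ≤ G (v + 1) - G v
  growth : ∃ C : ℝ, ∀ v : ℕ, 1 ≤ v → G v ≤ C * (v : ℝ) ^ d

theorem ex_of {G : ℕ → ℝ} {d : ℝ} (h : Expanding G d) : Pool.Agent.N733.TG.Expanding G d := ⟨h.one_le, h.step, h.growth⟩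

theorem on_of {P : ℕ → Prop} (h : Run7.h702.CT.OnAllTerms P) : OnAllTerms P := h

/-- **Philippon's inequality along Collatz trajectories.** `Good B α β ε A x n`: Philippon's inequality holds for `x` and
all nonzero `y` with `x y ^ B ≠ ± 1` of height at most `n ^ A` with numerator `± n` or denominator `n`. -/
theorem result (B : ℕ) (α β ε A κ : ℝ) (hα : 1 ≤ α) (hβ : 0 ≤ β) (hε : ε < 1 / 2) (hB : 2 ≤ ε * B) (hA : 1 ≤ A)
    (hκ : 0 ≤ κ) :
    (∀ (G : ℕ → ℝ) (d : ℝ), Expanding G d →
      (2 * A * d / α + κ < 1 → ∃ η : ℝ, 0 < η ∧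
        OnAllTerms (fun v => ∀ a : ℕ, 1 ≤ a → (a : ℝ) ≤ (v : ℝ) ^ η → ∀ n : ℕ,
          |(n : ℝ) - a * G v| ≤ (v : ℝ) ^ (κ + η) → ∀ x : ℚ, x ≠ 0 → Good B α β ε A x n)) ∧
      (∀ T γ : ℝ, 0 ≤ γ → d * (2 * γ + A / (α * B)) + κ < 1 → ∃ η : ℝ, 0 < η ∧
        OnAllTerms (fun v => ∀ a : ℕ, 1 ≤ a → (a : ℝ) ≤ (v : ℝ) ^ η → ∀ n : ℕ,
          |(n : ℝ) - a * G v| ≤ (v : ℝ) ^ (κ + η) → ∀ x : ℚ, x ≠ 0 → hgt x ≤ T * (n : ℝ) ^ γ →
            Good B α β ε A x n))) ∧
    ∀ a d : ℝ, 0 < a → 1 ≤ d → Expanding (fun v => a * (v : ℝ) ^ d) d := by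
  have hA0 : 0 < A := by linarith
  have hα0 : 0 < α := by linarith
  refine ⟨fun G d hG => ⟨fun h1 => ?_, fun T γ hγ h1 => ?_⟩, fun a d ha hd => ?_⟩
  · obtain ⟨η, hη, h2⟩ := Run7.h702.CT.nat (SequenceHeights.Bad B α β ε A) (ex_of hG) (s := A * (2 / α))
      (by positivity) hκ
      (by
        have : d * (A * (2 / α)) + κ = 2 * A * d / α + κ := by ring
        rw [this]
        exact h1) (fun δ hδ => by
        obtain ⟨C, hC⟩ := SequenceHeights.count B α β ε A hα hβ hε hB hA δ hδ
        refine ⟨C, fun X hX => le_trans (le_of_eq ?_) (hC X hX)⟩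
        congr!)
    refine ⟨η, hη, on_of (h2.imp (fun v hv a ha1 ha n hn x hx => ?_))⟩
    by_contra hg
    exact (hv a ha1 ha n hn).2 ⟨x, hx, fun h => hg ((good_iff _ _ _ _ _ _ _).2 h)⟩
  · have hT' : (1 : ℝ) ≤ max T 1 := le_max_right _ _
    obtain ⟨η, hη, h2⟩ := Run7.h702.CT.nat (BadG B α β ε A (max T 1) γ) (ex_of hG)
      (s := 2 * γ + A / (α * B)) (by positivity) hκ h1 (fun δ hδ => by
        obtain ⟨C, hC⟩ := countG B α β ε A (max T 1) γ hα hβ hε hB hA hT' hγ δ hδ
        refine ⟨C, fun X hX => le_trans (le_of_eq ?_) (hC X hX)⟩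
        congr!)
    refine ⟨η, hη, on_of (h2.imp (fun v hv a ha1 ha n hn x hx hh => ?_))⟩
    by_contra hg
    refine (hv a ha1 ha n hn).2 ⟨x, hx, hh.trans ?_, hg⟩
    exact mul_le_mul_of_nonneg_right (le_max_left _ _) (by positivity)
  · obtain ⟨h1, h2, h3⟩ := Pool.Agent.N733.TG.expanding_pow ha hd
    exact ⟨h1, h2, h3⟩

end Pool.Agent.Results.MP_05f553_nt.CollatzTerms
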