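import Pool.Agent.Run7.h95.NP.Main
import Pool.Agent.Results.MP_05f553_nt.GenericLinearForms

/-!
# Philippon's inequality for the rationals with numerator or denominator near products of linear forms

Let `α ≥ 1`, `β ≥ 0`, `ε < 1/2`, `ε B ≥ 2`, `A ≥ 1`, `R, θ ≥ 0`, `h ≥ 1` and `0 ≤ σ ≤ 1`, `σ < h (1 - s - θ)`. For all integer
vectors `u` in `[-X, X]^D` with at most `C Q^(h (D + 2)) X^(D - σ)` exceptions, `C` depending on `D`, and for EVERY natural
number `n` with `|n - |t|| ≤ R |t|^θ` for ANY product `t = w_1 ⋯ w_h` of `h` linear forms, `w = M u + b` with `M` an integral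
matrix of rank `h` and `b` an integral vector, the entries of `M` and `b` at most `Q`, all `w_j ≠ 0`, Philippon's inequality
holds for all `y` of height at most `n^A` with numerator `± n` or denominator `n`, and
(1) for ALL `x`, with `s = 2 A / α`;
(2) for all `x` of height at most `T n^γ`, with `s = 2 γ + A / (α B)`.
Here `Q` can be a small power of `X`. We prove a similar result for the integer vectors near `N_n ρ`, `N_n` a lacunary sequence
(for instance the truncations of the expansions in base `g`, `N_n = g^n`), for all real vectors `ρ` outside a set of dimension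
less than `D`, and `M`, `b` with entries up to a power of `N_n`.

The starting theorem `FewExceptions` bounds the number of the exceptional pairs. The products of `h` integers form a set of
density zero, and so the result for `h ≥ 2` does not follow from this number alone: the divisor bound shows that few vectors `w`
have a product near an exceptional number `n`, and for each of the possible `M`, `b` the map `u ↦ M u + b` has small fibres
(engine of helper469, `Run7/h469/Vm`, here extended to windows). The file `GenericLinearForms` is about one linear form with real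
coefficients, outside a set of coefficients of small dimension.
-/

set_option autoImplicit false

namespace Pool.Agent.Results.MP_05f553_nt.ProductsOfLinearForms

open Finset MeasureTheory
open Run7.h469.Vk (Hits Lacunary Generic Avoids)
open Run7.h469.Vm (ProductIn)
open Pool.Agent.Results.MP_05f553_nt (FewExceptions.Holds)

/-- the height of a rational number -/
noncomputable def hgt (x : ℚ) : ℝ := max |((x.num : ℤ) : ℝ)| ((x.den : ℕ) : ℝ)

/-- Philippon's inequality fails for `x` and some `y ≠ 0` of height at most `n ^ A` with numerator `± n` or denominator `n`. -/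
def Fails (B : ℕ) (α β ε A : ℝ) (x : ℚ) (n : ℕ) : Prop :=
  ∃ y : ℚ, y ≠ 0 ∧ x * y ^ B ≠ 1 ∧ x * y ^ B ≠ -1 ∧ (y.num.natAbs = n ∨ y.den = n) ∧ hgt y ≤ (n : ℝ) ^ A ∧
    ¬ FewExceptions.Holds B α β ε x y

/-- The integers `t` (vectors with one coordinate) such that the inequality fails for some `n` with `|n - |t|| ≤ R |t| ^ θ` and
some `x ≠ 0`. -/
def Bad (B : ℕ) (α β ε A R θ : ℝ) : Set (Fin 1 → ℤ) :=
  {t | ∃ n : ℕ, |(n : ℝ) - (|(t 0 : ℝ)|)| ≤ R * |(t 0 : ℝ)| ^ θ ∧ ∃ x : ℚ, x ≠ 0 ∧ Fails B α β ε A x n}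

/-- The integers `t` (vectors with one coordinate) such that the inequality fails for some `n` with `|n - |t|| ≤ R |t| ^ θ` and
some `x ≠ 0` of height at most `T n ^ γ`. -/
def BadLow (B : ℕ) (α β ε A T γ R θ : ℝ) : Set (Fin 1 → ℤ) :=
  {t | ∃ n : ℕ, |(n : ℝ) - (|(t 0 : ℝ)|)| ≤ R * |(t 0 : ℝ)| ^ θ ∧
    ∃ x : ℚ, x ≠ 0 ∧ hgt x ≤ T * (n : ℝ) ^ γ ∧ Fails B α β ε A x n}

/-- **The conclusion.** (1) There is `C` such that for all `D` and `X, Q ≥ 1`, for all but
`C ((D + 1)^h 3^((h + 1) (D + 1))) Q^(h (D + 2)) X^(D - σ)` of the integer vectors `u` in `[-X, X]^D` no product `w_1 ⋯ w_h` of the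
nonzero coordinates of a vector `w = M u + b`, `M` integral of rank `h`, with entries of `M` and `b` at most `Q`, is in `W`;
(2) for lacunary `N_i` and `κ ≥ 0`, outside a set of `ρ` in `ℝ^D` of dimension at most `D - σ + h (D + 2) κ` (and almost
everywhere for measures of larger dimension), for all `A'`, for all large `i` the same is true for the integer vectors `u` with
`|u - N_i ρ| ≤ A'` and `M`, `b` with entries at most `A' N_i^κ`; (3) in particular it is true for almost all `ρ`, if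
`h (D + 2) κ < σ`. -/
def ProductsAvoid (h : ℕ) (σ : ℝ) (W : Set (Fin 1 → ℤ)) : Prop :=
  (∃ C : ℝ, ∀ D X Q : ℕ, 1 ≤ X → 1 ≤ Q →
    (({u : Fin D → ℤ | (∀ j, |u j| ≤ X) ∧ u ∈ Hits (ProductIn h W) D Q}.ncard : ℕ) : ℝ) ≤
      C * (((D : ℝ) + 1) ^ h * 3 ^ ((h + 1) * (D + 1))) * (Q : ℝ) ^ (h * (D + 2)) * (X : ℝ) ^ ((D : ℝ) - σ)) ∧
  (∀ D : ℕ, 1 ≤ D → ∀ N : ℕ → ℝ, Lacunary N → ∀ κ : ℝ, 0 ≤ κ →
    Generic ((D : ℝ) - σ + h * (D + 2) * κ) (fun ρ : Fin D → ℝ => Avoids (ProductIn h W) N κ ρ)) ∧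
  ∀ D : ℕ, 1 ≤ D → ∀ N : ℕ → ℝ, Lacunary N → ∀ κ : ℝ, 0 ≤ κ → h * (D + 2) * κ < σ →
    ∀ᵐ ρ : Fin D → ℝ, Avoids (ProductIn h W) N κ ρ

open Classical in
lemma ncard_eq (P : Set ℕ) (X : ℕ) :
    {t : ℕ | 1 ≤ t ∧ t ≤ X ∧ t ∈ P}.ncard = ((Ioc 0 X).filter (fun m => m ∈ P)).card := by
  rw [← Set.ncard_coe_finset]
  congr 1
  ext t
  rw [mem_coe, mem_filter, mem_Ioc]
  exact ⟨fun h => ⟨⟨h.1, h.2.1⟩, h.2.2⟩, fun h => ⟨h.1.1, h.1.2, h.2⟩⟩

lemma Fails.pos {B : ℕ} {α β ε A : ℝ} {x : ℚ} {n : ℕ} (h : Fails B α β ε A x n) : 1 ≤ n := by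
  obtain ⟨y, hy, -, -, h1 | h1, -⟩ := h
  · rw [← h1]
    exact Int.natAbs_pos.2 (Rat.num_ne_zero.2 hy)
  · rw [← h1]
    exact y.den_pos

lemma Fails.not_good {B : ℕ} {α β ε A : ℝ} {x : ℚ} {n : ℕ} (h : Fails B α β ε A x n) :
    ¬ GenericLinearForms.Good B α β ε A x n := by
  obtain ⟨y, h1, h2, h3, h4, h5, h6⟩ := h
  exact fun hg => h6 (hg y h1 h2 h3 h4 h5)

/-- **Philippon's inequality near products of linear forms.** Let `α ≥ 1`, `β ≥ 0`, `ε < 1/2`, `ε B ≥ 2`, `A ≥ 1`,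
`R, θ ≥ 0`, `h ≥ 1`, `0 ≤ σ ≤ 1`. Then `ProductsAvoid h σ W` holds for
(1) the set `W` of the integers `t` for which the inequality fails for some natural number `n` with `|n - |t|| ≤ R |t|^θ`, some
`y ≠ 0` of height at most `n^A` with numerator `± n` or denominator `n` and some `x ≠ 0`, if `σ < h (1 - 2 A / α - θ)`;
(2) the same with `x` of height at most `T n^γ`, if `γ ≥ 0` and `σ < h (1 - (2 γ + A / (α B)) - θ)`. -/
theorem result (B : ℕ) (α β ε A R θ : ℝ) (hα : 1 ≤ α) (hβ : 0 ≤ β) (hε : ε < 1 / 2) (hB : 2 ≤ ε * B) (hA : 1 ≤ A)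
    (hR : 0 ≤ R) (hθ : 0 ≤ θ) (h : ℕ) (hh : 1 ≤ h) (σ : ℝ) (hσ : 0 ≤ σ) (hσ1 : σ ≤ 1) :
    (σ < h * (1 - 2 * A / α - θ) → ProductsAvoid h σ (Bad B α β ε A R θ)) ∧
    ∀ T γ : ℝ, 0 ≤ γ → σ < h * (1 - (2 * γ + A / (α * B)) - θ) → ProductsAvoid h σ (BadLow B α β ε A T γ R θ) := by
  have hA0 : 0 < A := by linarith
  have hα0 : 0 < α := by linarith
  refine ⟨fun hlt => ?_, fun T γ hγ hlt => ?_⟩
  · refine Run7.h95.NP.near_nat hh (s := A * (2 / α)) (by positivity) hθ hR hσ hσ1 (by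
      rw [show A * (2 / α) = 2 * A / α by ring]
      exact hlt) (Bad := fun n => n ∈ SequenceHeights.Bad B α β ε A) (fun δ hδ => ?_) fun t ht => ?_
    · obtain ⟨C, hC⟩ := SequenceHeights.count B α β ε A hα hβ hε hB hA δ hδ
      refine ⟨C, fun X hX => le_trans (le_of_eq ?_) (hC X hX)⟩
      rw [ncard_eq]
    · obtain ⟨n, h1, x, hx, h2⟩ := ht
      refine ⟨n, h2.pos, ⟨x, hx, ?_⟩, h1⟩
      rw [← GenericLinearForms.good_iff]
      exact h2.not_good
  · refine Run7.h95.NP.near_nat hh (s := 2 * γ + A / (α * B)) (by positivity) hθ hR hσ hσ1 hlt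
      (Bad := fun n => n ∈ GenericLinearForms.BadG B α β ε A (max T 1) γ) (fun δ hδ => ?_) fun t ht => ?_
    · obtain ⟨C, hC⟩ := GenericLinearForms.countG B α β ε A (max T 1) γ hα hβ hε hB hA (le_max_right _ _) hγ δ hδ
      refine ⟨C, fun X hX => le_trans (le_of_eq ?_) (hC X hX)⟩
      rw [ncard_eq]
    · obtain ⟨n, h1, x, hx, hxh, h2⟩ := ht
      exact ⟨n, h2.pos, ⟨x, hx, hxh.trans (mul_le_mul_of_nonneg_right (le_max_left T 1) (by positivity)), h2.not_good⟩, h1⟩

end Pool.Agent.Results.MP_05f553_nt.ProductsOfLinearForms
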