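import Pool.Agent.Run7.h430.TW.Kit2
import Pool.Agent.Results.MP_05f553_nt.MultiplicativeValues

/-!
# Philippon's inequality for all rationals with a coordinate near almost all orbits of Euler's function

Let `φ_k` be the `k`-th iterate of Euler's function, `φ_0(m) = m`. Let `f` be a positive multiplicative function of at most
polynomial growth such that `f p ≤ M p` for the large primes `p`, with different values at different large primes; for example
the identity, Euler's function or the sum of the divisors. Let `G` be a function with steps bounded below by a positive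
constant and growth at most `v^d`, for example `G v = a v^d`, and `κ ≥ 0`. There is `K(m)` tending to infinity such that for
almost all `m`, for ALL `k ≤ K(m)`, with `v = f(φ_k(m))`, ALL `1 ≤ a ≤ K(m)` and EVERY integer `n` with `|n - a G(v)| ≤ K(m) v^κ`,
Philippon's inequality holds
(1) if `2 A d / α + κ < 1`: for ALL `x` and all `y` of height at most `n^A` with numerator `± n` or denominator `n`;
(2) if `d (2 γ + A / (α B)) + κ < 1` (every `α ≥ 1` is allowed): for all `x` of height at most `T n^γ` and these `y`.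
For example (`d = 1`, `κ = 0`) for all `n = a φ_k(m) + h` with `k, a, |h| ≤ K(m)`.

The iterates of Euler's function are not multiplicative, and the values `φ_k(m)`, `m ≤ N`, form a thin set and are taken with
very large multiplicities; so this does not follow from the size of the set of the exceptional integers (`X^(2 A / α + δ)` and
`X^(2 γ + A / (α B) + δ)`, starting files), which is used here. The tool is `Pool.Agent.N760.IT` (starting files), in the
form of `Run7/h430/TW/Kit` (multiples and enlarged windows).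
-/

set_option autoImplicit false

namespace Pool.Agent.Results.MP_05f553_nt.TotientOrbits

open Finset Filter Topology
open Pool.Agent.Results.MP_05f553_nt.MultiplicativeValues (hgt Good BadG countG good_iff)

/-- A positive multiplicative function of at most polynomial growth, at most `M p` at the large primes `p` and with different
values at different large primes. -/
structure Moderate (f : ℕ → ℕ) : Prop where
  mul : ∀ m n : ℕ, Nat.Coprime m n → f (m * n) = f m * f n
  pos : ∀ m : ℕ, 1 ≤ m → 1 ≤ f m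
  growth : ∃ C D : ℕ, ∀ m : ℕ, 1 ≤ m → f m ≤ C * m ^ D
  prime : ∃ P M : ℕ, ∀ p : ℕ, P ≤ p → p.Prime → f p ≤ M * p ∧ ∀ q : ℕ, P ≤ q → q.Prime → f q = f p → q = p

/-- The steps of `G` are at least a positive constant, and `G` grows at most like `v ^ d`, `d ≥ 1`. -/
structure Expanding (G : ℕ → ℝ) (d : ℝ) : Prop where
  one_le : 1 ≤ d
  step : ∃ a : ℝ, 0 < a ∧ ∀ v : ℕ, 1 ≤ v → a ≤ G (v + 1) - G v
  growth : ∃ C : ℝ, ∀ v : ℕ, 1 ≤ v → G v ≤ C * (v : ℝ) ^ d

open Classical in
/-- The proportion of the positive integers `m ≤ N` without the property `P` tends to `0`. -/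
def AlmostAll (P : ℕ → Prop) : Prop :=
  Tendsto (fun N : ℕ => (((Icc 1 N).filter (fun m => ¬ P m)).card : ℝ) / N) atTop (𝓝 0)

/-- the value of `f` at the `k`-th iterate of Euler's function -/
def orb (f : ℕ → ℕ) (k m : ℕ) : ℕ := f (Nat.totient^[k] m)

theorem lm_of {f : ℕ → ℕ} (hf : Moderate f) : Pool.Agent.N733.TG.LM f := ⟨hf.mul, hf.pos, hf.growth, hf.prime⟩

theorem of_lm {f : ℕ → ℕ} (hf : Pool.Agent.N733.TG.LM f) : Moderate f := ⟨hf.mul, hf.pos, hf.growth, hf.prime⟩

theorem ex_of {G : ℕ → ℝ} {d : ℝ} (h : Expanding G d) : Pool.Agent.N733.TG.Expanding G d := ⟨h.one_le, h.step, h.growth⟩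

/-- **Philippon's inequality along orbits of Euler's function.** `Good B α β ε A x n`: Philippon's inequality holds for `x` and
all nonzero `y` with `x y ^ B ≠ ± 1` of height at most `n ^ A` with numerator `± n` or denominator `n`. -/
theorem result (B : ℕ) (α β ε A κ : ℝ) (hα : 1 ≤ α) (hβ : 0 ≤ β) (hε : ε < 1 / 2) (hB : 2 ≤ ε * B) (hA : 1 ≤ A)
    (hκ : 0 ≤ κ) :
    (∀ f : ℕ → ℕ, Moderate f → ∀ (G : ℕ → ℝ) (d : ℝ), Expanding G d →
      (2 * A * d / α + κ < 1 → ∃ K : ℕ → ℕ, Tendsto K atTop atTop ∧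
        AlmostAll (fun m => ∀ k ≤ K m, ∀ a : ℕ, 1 ≤ a → a ≤ K m → ∀ n : ℕ,
          |(n : ℝ) - a * G (orb f k m)| ≤ K m * (orb f k m : ℝ) ^ κ → ∀ x : ℚ, x ≠ 0 → Good B α β ε A x n)) ∧
      (∀ T γ : ℝ, 0 ≤ γ → d * (2 * γ + A / (α * B)) + κ < 1 → ∃ K : ℕ → ℕ, Tendsto K atTop atTop ∧
        AlmostAll (fun m => ∀ k ≤ K m, ∀ a : ℕ, 1 ≤ a → a ≤ K m → ∀ n : ℕ,
          |(n : ℝ) - a * G (orb f k m)| ≤ K m * (orb f k m : ℝ) ^ κ → ∀ x : ℚ, x ≠ 0 → hgt x ≤ T * (n : ℝ) ^ γ →
            Good B α β ε A x n))) ∧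
    (Moderate (fun m => m) ∧ Moderate Nat.totient ∧ Moderate (fun m => ∑ d ∈ m.divisors, d)) ∧
    ∀ a d : ℝ, 0 < a → 1 ≤ d → Expanding (fun v => a * (v : ℝ) ^ d) d := by
  have hA0 : 0 < A := by linarith
  have hα0 : 0 < α := by linarith
  refine ⟨fun f hf G d hG => ⟨fun h1 => ?_, fun T γ hγ h1 => ?_⟩,
    ⟨of_lm Pool.Agent.N760.IT.lm_id, of_lm Pool.Agent.N733.TG.lm_totient, of_lm Pool.Agent.N733.TG.lm_sigma⟩,
    fun a d ha hd => ?_⟩
  · obtain ⟨K, hK, h2⟩ := Run7.h430.TW.kit_nat (SequenceHeights.Bad B α β ε A) (lm_of hf) (ex_of hG) (s := A * (2 / α))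
      (by positivity) hκ
      (by
        have : d * (A * (2 / α)) + κ = 2 * A * d / α + κ := by ring
        rw [this]
        exact h1) (fun δ hδ => by
        obtain ⟨C, hC⟩ := SequenceHeights.count B α β ε A hα hβ hε hB hA δ hδ
        refine ⟨C, fun X hX => le_trans (le_of_eq ?_) (hC X hX)⟩
        congr!)
    refine ⟨K, hK, Pool.Agent.N826.IT.Orb.almostAll_mono h2 (fun m hm k hk a ha1 ha n hn x hx => ?_)⟩
    by_contra hg
    exact absurd hn (not_le.2 (hm k hk a ha1 ha n (Or.inr ⟨x, hx, fun h => hg ((good_iff _ _ _ _ _ _ _).2 h)⟩)))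
  · have hT' : (1 : ℝ) ≤ max T 1 := le_max_right _ _
    obtain ⟨K, hK, h2⟩ := Run7.h430.TW.kit_nat (BadG B α β ε A (max T 1) γ) (lm_of hf) (ex_of hG)
      (s := 2 * γ + A / (α * B)) (by positivity) hκ h1 (fun δ hδ => by
        obtain ⟨C, hC⟩ := countG B α β ε A (max T 1) γ hα hβ hε hB hA hT' hγ δ hδ
        refine ⟨C, fun X hX => le_trans (le_of_eq ?_) (hC X hX)⟩
        congr!)
    refine ⟨K, hK, Pool.Agent.N826.IT.Orb.almostAll_mono h2 (fun m hm k hk a ha1 ha n hn x hx hh => ?_)⟩
    by_contra hg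
    refine absurd hn (not_le.2 (hm k hk a ha1 ha n (Or.inr ⟨x, hx, hh.trans ?_, hg⟩)))
    exact mul_le_mul_of_nonneg_right (le_max_left _ _) (by positivity)
  · obtain ⟨h1, h2, h3⟩ := Pool.Agent.N733.TG.expanding_pow ha hd
    exact ⟨h1, h2, h3⟩

end Pool.Agent.Results.MP_05f553_nt.TotientOrbits
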